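import Pool.Agent.H41.AV.Defs

set_option autoImplicit false

namespace Pool.Agent.H185.AV

open Equiv Finset Pool.Agent.H41.AV

theorem asy (hg : S_GOOD) (hh : S_HALL) : S_ASY := by
  intro ε hε
  rcases le_or_gt ε 1 with h1 | h1
  · obtain ⟨η, B, n₁, hη, hB, hhall⟩ := hh ε hε h1
    obtain ⟨n₀, hgood⟩ := hg ε η B hε h1 hη hB
    refine ⟨max n₀ n₁, ?_⟩
    intro G _ _ _ A hn hA
    obtain ⟨ρ, τ, hD, hGG, hHH⟩ := hgood G A ((le_max_left _ _).trans hn) hA
    obtain ⟨F, hF⟩ := hhall G A ρ τ ((le_max_right _ _).trans hn) hA hD hGG hHH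
    refine ⟨fun i j => F.symm (τ j - ρ i), ?_, ?_, ?_⟩
    · intro i j j' h
      have h2 := F.symm.injective h
      exact τ.injective (sub_left_injective h2)
    · intro j i i' h
      have h2 := F.symm.injective h
      exact ρ.injective (sub_right_injective h2)
    · intro i j h
      have h3 := hF (F.symm (τ j - ρ i))
      rw [Equiv.apply_symm_apply] at h3
      unfold cnt at h3
      rw [Finset.card_eq_zero] at h3
      have h4 : i ∈ (univ.filter fun k =>
          A k (τ.symm (ρ k + (τ j - ρ i))) = some (F.symm (τ j - ρ i))) := by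
        simp only [Finset.mem_filter, Finset.mem_univ, true_and]
        have h5 : ρ i + (τ j - ρ i) = τ j := by abel
        rw [h5, Equiv.symm_apply_apply]
        exact h
      rw [h3] at h4
      exact absurd h4 (Finset.notMem_empty _)
  · refine ⟨1, ?_⟩
    intro G _ _ _ A hn hA
    exfalso
    have h2 := hA 0
    have h3 : (0:ℝ) ≤ ((cells A 0).card : ℝ) := Nat.cast_nonneg _
    have h4 : (1:ℝ) ≤ (Fintype.card G : ℝ) := by exact_mod_cast hn
    nlinarith

end Pool.Agent.H185.AV
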