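import Pool.Agent.H41.AV.Defs

set_option autoImplicit false

namespace Pool.Agent.H185.AV

open Equiv Finset Pool.Agent.H41.AV

lemma gen {G : Type} [Fintype G] [DecidableEq G] (u v : G → Option G) (D : Finset G)
    (hD : D.card ≤ 2) (huv : ∀ i, i ∉ D → u i = v i) :
    ∑ x, |(((univ.filter fun i => u i = some x).card : ℕ) : ℝ) -
      ((univ.filter fun i => v i = some x).card : ℕ)| ≤ 4 := by
  have h1 : ∀ (w : G → Option G) (i : G), ∑ x, (if w i = some x then (1:ℝ) else 0) ≤ 1 := by
    intro w i
    rw [Finset.sum_boole]
    have : (univ.filter fun x => w i = some x).card ≤ 1 := by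
      rw [Finset.card_le_one]
      intro x hx z hz
      simp only [Finset.mem_filter, Finset.mem_univ, true_and] at hx hz
      exact Option.some_injective _ (hx.symm.trans hz)
    exact_mod_cast this
  have h2 : ∀ x, |(((univ.filter fun i => u i = some x).card : ℕ) : ℝ) -
      ((univ.filter fun i => v i = some x).card : ℕ)| ≤
      ∑ i ∈ D, ((if u i = some x then (1:ℝ) else 0) + (if v i = some x then (1:ℝ) else 0)) := by
    intro x
    have h3 : (((univ.filter fun i => u i = some x).card : ℕ) : ℝ) -
      ((univ.filter fun i => v i = some x).card : ℕ) =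
        ∑ i, ((if u i = some x then (1:ℝ) else 0) - (if v i = some x then (1:ℝ) else 0)) := by
      rw [Finset.sum_sub_distrib, Finset.sum_boole, Finset.sum_boole]
    have h4 : ∑ i, ((if u i = some x then (1:ℝ) else 0) - (if v i = some x then (1:ℝ) else 0)) =
        ∑ i ∈ D, ((if u i = some x then (1:ℝ) else 0) - (if v i = some x then (1:ℝ) else 0)) := by
      symm
      refine Finset.sum_subset (Finset.subset_univ _) ?_
      intro i _ hi
      rw [huv i hi, sub_self]
    rw [h3, h4]
    refine (Finset.abs_sum_le_sum_abs _ _).trans (Finset.sum_le_sum fun i _ => ?_)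
    split_ifs <;> norm_num
  refine (Finset.sum_le_sum fun x _ => h2 x).trans ?_
  rw [Finset.sum_comm]
  have h5 : ∀ i ∈ D, ∑ x, ((if u i = some x then (1:ℝ) else 0) +
      (if v i = some x then (1:ℝ) else 0)) ≤ 2 := by
    intro i _
    rw [Finset.sum_add_distrib]
    linarith [h1 u i, h1 v i]
  refine (Finset.sum_le_sum h5).trans ?_
  rw [Finset.sum_const, nsmul_eq_mul]
  have : (D.card : ℝ) ≤ 2 := by exact_mod_cast hD
  linarith

theorem lip : S_LIP := by
  intro G _ _ _ A ρ τ y a b
  constructor
  · refine gen (fun i => A i (τ.symm ((ρ * swap a b) i + y)))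
      (fun i => A i (τ.symm (ρ i + y))) {a, b} Finset.card_le_two ?_
    intro i hi
    simp only [Finset.mem_insert, Finset.mem_singleton, not_or] at hi
    simp only [Perm.mul_apply]
    rw [swap_apply_of_ne_of_ne hi.1 hi.2]
  · refine gen (fun i => A i ((τ * swap a b).symm (ρ i + y)))
      (fun i => A i (τ.symm (ρ i + y)))
      (univ.filter fun i => τ.symm (ρ i + y) ∈ ({a, b} : Finset G)) ?_ ?_
    · refine (Finset.card_le_card_of_injOn (t := ({a, b} : Finset G))
        (fun i => τ.symm (ρ i + y)) ?_ ?_).trans Finset.card_le_two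
      · intro i hi
        exact (Finset.mem_filter.1 hi).2
      · intro i _ j _ h
        have h1 := τ.symm.injective h
        exact ρ.injective (add_right_cancel h1)
    · intro i hi
      simp only [Finset.mem_filter, Finset.mem_univ, true_and, Finset.mem_insert,
        Finset.mem_singleton, not_or] at hi
      have h1 : (τ * swap a b).symm (ρ i + y) = τ.symm (ρ i + y) := by
        rw [Equiv.symm_apply_eq, Perm.mul_apply, swap_apply_of_ne_of_ne hi.1 hi.2,
          Equiv.apply_symm_apply]
      change A i ((τ * swap a b).symm (ρ i + y)) = A i (τ.symm (ρ i + y))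
      rw [h1]

end Pool.Agent.H185.AV
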