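import Pool.Agent.H41.AV.Defs

set_option autoImplicit false

namespace Pool.Agent.H185.AV

open Equiv Finset Pool.Agent.H41.AV
open scoped Nat

lemma aux (n : ℕ) (g : Fin (n + 1) → ℝ) (L lam : ℝ)
    (hg : ∀ a b, |g a - g b| ≤ L) :
    ∑ a, Real.exp (lam * (g a - (∑ b, g b) / (n + 1 : ℝ))) ≤
      (n + 1 : ℝ) * Real.exp (lam ^ 2 * L ^ 2 / 2) := by
  set m : ℝ := (∑ b, g b) / (n + 1 : ℝ) with hm
  have hn : (0 : ℝ) < n + 1 := by positivity
  have hY : (n + 1 : ℝ) ≤ ∑ b, Real.exp (-(lam * (g b - m))) := by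
    have h1 : ∑ b : Fin (n+1), (-(lam * (g b - m)) + 1) ≤
        ∑ b, Real.exp (-(lam * (g b - m))) :=
      Finset.sum_le_sum fun b _ => Real.add_one_le_exp _
    have h2 : ∑ b : Fin (n+1), (-(lam * (g b - m)) + 1) = n + 1 := by
      rw [Finset.sum_add_distrib, Finset.sum_neg_distrib, ← Finset.mul_sum,
        Finset.sum_sub_distrib]
      have h3 : ∑ b : Fin (n+1), m = ∑ b, g b := by
        rw [Finset.sum_const, Finset.card_univ, Fintype.card_fin, nsmul_eq_mul, hm]
        push_cast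
        field_simp
      rw [h3]; simp
    linarith
  have hXY : (∑ a, Real.exp (lam * (g a - m))) * (∑ b, Real.exp (-(lam * (g b - m)))) =
      ∑ a, ∑ b, Real.exp (lam * (g a - g b)) := by
    rw [Finset.sum_mul_sum]
    refine Finset.sum_congr rfl fun a _ => Finset.sum_congr rfl fun b _ => ?_
    rw [← Real.exp_add]; congr 1; ring
  have hS : ∑ a, ∑ b, Real.exp (lam * (g a - g b)) ≤
      (n + 1 : ℝ) ^ 2 * Real.exp (lam ^ 2 * L ^ 2 / 2) := by
    have hc : ∑ a, ∑ b, Real.exp (lam * (g a - g b)) =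
        ∑ a, ∑ b, Real.exp (-(lam * (g a - g b))) := by
      rw [Finset.sum_comm]
      refine Finset.sum_congr rfl fun a _ => Finset.sum_congr rfl fun b _ => ?_
      congr 1; ring
    have h2 : ∑ a, ∑ b, Real.exp (lam * (g a - g b)) =
        ∑ a, ∑ b, Real.cosh (lam * (g a - g b)) := by
      have h3 : ∑ a, ∑ b, Real.cosh (lam * (g a - g b)) =
          (∑ a, ∑ b, Real.exp (lam * (g a - g b)) +
            ∑ a, ∑ b, Real.exp (-(lam * (g a - g b)))) / 2 := by
        rw [← Finset.sum_add_distrib, Finset.sum_div]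
        refine Finset.sum_congr rfl fun a _ => ?_
        rw [← Finset.sum_add_distrib, Finset.sum_div]
        refine Finset.sum_congr rfl fun b _ => ?_
        rw [Real.cosh_eq]
      rw [h3, ← hc]; ring
    rw [h2]
    have h4 : ∀ a b, Real.cosh (lam * (g a - g b)) ≤ Real.exp (lam ^ 2 * L ^ 2 / 2) := by
      intro a b
      refine (Real.cosh_le_exp_half_sq _).trans (Real.exp_le_exp.2 ?_)
      have h5 : (g a - g b) ^ 2 ≤ L ^ 2 :=
        sq_le_sq' (by linarith [(abs_le.1 (hg a b)).1]) (abs_le.1 (hg a b)).2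
      have h6 : lam ^ 2 * (g a - g b) ^ 2 ≤ lam ^ 2 * L ^ 2 :=
        mul_le_mul_of_nonneg_left h5 (sq_nonneg _)
      rw [mul_pow]; linarith
    calc ∑ a, ∑ b, Real.cosh (lam * (g a - g b))
        ≤ ∑ a : Fin (n+1), ∑ b : Fin (n+1), Real.exp (lam ^ 2 * L ^ 2 / 2) :=
          Finset.sum_le_sum fun a _ => Finset.sum_le_sum fun b _ => h4 a b
      _ = _ := by
          simp only [Finset.sum_const, Finset.card_univ, Fintype.card_fin, nsmul_eq_mul]
          push_cast; ring
  have hX0 : 0 ≤ ∑ a, Real.exp (lam * (g a - m)) :=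
    Finset.sum_nonneg fun a _ => (Real.exp_pos _).le
  have h7 : (∑ a, Real.exp (lam * (g a - m))) * (n + 1) ≤
      (n + 1 : ℝ) ^ 2 * Real.exp (lam ^ 2 * L ^ 2 / 2) :=
    (mul_le_mul_of_nonneg_left hY hX0).trans (hXY.le.trans hS)
  have h8 : (∑ a, Real.exp (lam * (g a - m))) * (n + 1) ≤
      ((n + 1 : ℝ) * Real.exp (lam ^ 2 * L ^ 2 / 2)) * (n + 1) := by
    refine h7.trans (le_of_eq ?_)
    ring
  exact le_of_mul_le_mul_right h8 hn

lemma dec_fst (n : ℕ) (ρ : Perm (Fin (n + 1))) :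
    (Equiv.Perm.decomposeFin ρ).1 = ρ 0 := by
  have h := Equiv.Perm.decomposeFin_symm_apply_zero (Equiv.Perm.decomposeFin ρ).1
    (Equiv.Perm.decomposeFin ρ).2
  rw [Prod.mk.eta, Equiv.symm_apply_apply] at h
  exact h.symm

lemma dec_mul_swap (n : ℕ) (a : Fin (n + 1)) (σ : Perm (Fin n)) (i j : Fin n) :
    Equiv.Perm.decomposeFin.symm (a, σ * swap i j) =
      Equiv.Perm.decomposeFin.symm (a, σ) * swap i.succ j.succ := by
  refine Equiv.ext fun x => ?_
  refine Fin.cases ?_ (fun x => ?_) x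
  · rw [Equiv.Perm.decomposeFin_symm_apply_zero, Perm.mul_apply,
      swap_apply_of_ne_of_ne (Fin.succ_ne_zero i).symm (Fin.succ_ne_zero j).symm,
      Equiv.Perm.decomposeFin_symm_apply_zero]
  · rw [Equiv.Perm.decomposeFin_symm_apply_succ, Perm.mul_apply, Perm.mul_apply,
      (Fin.succ_injective n).swap_apply, Equiv.Perm.decomposeFin_symm_apply_succ]

theorem mgf : S_MGF := by
  intro n
  induction n with
  | zero =>
    intro f L lam hL hf
    have h1 : ∀ ρ : Perm (Fin 0), f ρ - (∑ σ, f σ) / ((0 : ℕ) ! : ℝ) = 0 := by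
      intro ρ
      have : ∑ σ, f σ = f ρ := by
        rw [Fintype.sum_subsingleton _ ρ]
      rw [this]; simp
    have h2 : ∀ ρ : Perm (Fin 0),
        Real.exp (lam * (f ρ - (∑ σ, f σ) / ((0 : ℕ) ! : ℝ))) = 1 := by
      intro ρ
      rw [h1 ρ]; simp
    rw [Finset.sum_congr rfl fun ρ _ => h2 ρ]
    simp
  | succ n ih =>
    intro f L lam hL hf
    let d : Fin (n+1) × Perm (Fin n) ≃ Perm (Fin (n+1)) := Equiv.Perm.decomposeFin.symm
    let g : Fin (n+1) → ℝ := fun a => (∑ σ, f (d (a, σ))) / (n ! : ℝ)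
    have hfac : (0:ℝ) < (n ! : ℝ) := by positivity
    have hgL : ∀ a b, |g a - g b| ≤ L := by
      intro a b
      let ph : Perm (Fin n) → Perm (Fin n) := fun σ =>
        (Equiv.Perm.decomposeFin (swap a b * d (a, σ))).2
      have hph : ∀ σ, d (b, ph σ) = swap a b * d (a, σ) := by
        intro σ
        have h0 : (Equiv.Perm.decomposeFin (swap a b * d (a, σ))).1 = b := by
          rw [dec_fst, Perm.mul_apply]
          change swap a b (Equiv.Perm.decomposeFin.symm (a, σ) 0) = b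
          rw [Equiv.Perm.decomposeFin_symm_apply_zero, swap_apply_left]
        have h1 : (b, ph σ) = Equiv.Perm.decomposeFin (swap a b * d (a, σ)) :=
          Prod.ext h0.symm rfl
        rw [h1]
        exact Equiv.symm_apply_apply _ _
      have hinj : Function.Injective ph := by
        intro σ σ' h
        have h1 : swap a b * d (a, σ) = swap a b * d (a, σ') := by
          rw [← hph, ← hph, h]
        have h2 := d.injective (mul_left_cancel h1)
        exact (Prod.ext_iff.1 h2).2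
      have hbij : Function.Bijective ph := Finite.injective_iff_bijective.1 hinj
      have hsum : ∑ σ, f (d (b, σ)) = ∑ σ, f (swap a b * d (a, σ)) := by
        rw [← Function.Bijective.sum_comp hbij (fun σ => f (d (b, σ)))]
        exact Finset.sum_congr rfl fun σ _ => by rw [hph]
      have hdiff : |∑ σ, f (d (b, σ)) - ∑ σ, f (d (a, σ))| ≤ (n ! : ℝ) * L := by
        rw [hsum, ← Finset.sum_sub_distrib]
        refine (Finset.abs_sum_le_sum_abs _ _).trans ?_
        have h3 : ∀ σ : Perm (Fin n), |f (swap a b * d (a, σ)) - f (d (a, σ))| ≤ L := by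
          intro σ
          rw [Equiv.swap_mul_eq_mul_swap]
          exact hf _ _ _
        refine (Finset.sum_le_sum fun σ _ => h3 σ).trans (le_of_eq ?_)
        rw [Finset.sum_const, Finset.card_univ, Fintype.card_perm, Fintype.card_fin,
          nsmul_eq_mul]
      have h4 : g a - g b = (∑ σ, f (d (a, σ)) - ∑ σ, f (d (b, σ))) / (n ! : ℝ) := by
        simp only [g]; ring
      rw [h4, abs_div, abs_of_pos hfac, div_le_iff₀ hfac, abs_sub_comm]
      linarith
    have hm : (∑ σ, f σ) / ((n+1)! : ℝ) = (∑ b, g b) / (n + 1 : ℝ) := by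
      have h1 : ∑ σ, f σ = ∑ b, ∑ σ, f (d (b, σ)) := by
        rw [← Equiv.sum_comp d f, Fintype.sum_prod_type]
      rw [h1, Nat.factorial_succ]
      simp only [g]
      rw [← Finset.sum_div]
      push_cast
      field_simp
    rw [hm]
    set m : ℝ := (∑ b, g b) / (n + 1 : ℝ) with hmdef
    have hsplit : ∑ ρ, Real.exp (lam * (f ρ - m)) =
        ∑ a, (∑ σ, Real.exp (lam * (f (d (a, σ)) - g a))) * Real.exp (lam * (g a - m)) := by
      rw [← Equiv.sum_comp d, Fintype.sum_prod_type]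
      refine Finset.sum_congr rfl fun a _ => ?_
      rw [Finset.sum_mul]
      refine Finset.sum_congr rfl fun σ _ => ?_
      rw [← Real.exp_add]; congr 1; ring
    have hih : ∀ a, ∑ σ, Real.exp (lam * (f (d (a, σ)) - g a)) ≤
        (n ! : ℝ) * Real.exp (n * lam ^ 2 * L ^ 2 / 2) := by
      intro a
      refine ih (fun σ => f (d (a, σ))) L lam hL ?_
      intro σ i j
      have h5 : d (a, σ * swap i j) = d (a, σ) * swap i.succ j.succ := dec_mul_swap n a σ i j
      change |f (d (a, σ * swap i j)) - f (d (a, σ))| ≤ L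
      rw [h5]
      exact hf _ _ _
    rw [hsplit]
    calc ∑ a, (∑ σ, Real.exp (lam * (f (d (a, σ)) - g a))) * Real.exp (lam * (g a - m))
        ≤ ∑ a, ((n ! : ℝ) * Real.exp (n * lam ^ 2 * L ^ 2 / 2)) *
            Real.exp (lam * (g a - m)) :=
          Finset.sum_le_sum fun a _ =>
            mul_le_mul_of_nonneg_right (hih a) (Real.exp_pos _).le
      _ = ((n ! : ℝ) * Real.exp (n * lam ^ 2 * L ^ 2 / 2)) *
            ∑ a, Real.exp (lam * (g a - m)) := by rw [Finset.mul_sum]
      _ ≤ ((n ! : ℝ) * Real.exp (n * lam ^ 2 * L ^ 2 / 2)) *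
            ((n + 1 : ℝ) * Real.exp (lam ^ 2 * L ^ 2 / 2)) :=
          mul_le_mul_of_nonneg_left (aux n g L lam hgL) (by positivity)
      _ = (((n + 1)! : ℕ) : ℝ) * Real.exp (((n + 1 : ℕ) : ℝ) * lam ^ 2 * L ^ 2 / 2) := by
          rw [Nat.factorial_succ]
          push_cast
          have h6 : ((n : ℝ) + 1) * lam ^ 2 * L ^ 2 / 2 =
              n * lam ^ 2 * L ^ 2 / 2 + lam ^ 2 * L ^ 2 / 2 := by ring
          rw [h6, Real.exp_add]
          ring

end Pool.Agent.H185.AV
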